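import Pool.Agent.R972.MS.Ex

/-!
# The mean-split algorithm can be slow under a finite second moment

For every `ρ` with `1/2 < ρ` and `ρ² + ρ < 1` (so up to the golden ratio `0.618…`) there is an
absolutely continuous probability measure with finite second moment for which
`W₁(μ^(n), μ) ≥ c ρ^n` for all `n`.
-/

set_option autoImplicit false

open MeasureTheory Filter Topology Pool.Agent.R972.MS
open scoped ENNReal

namespace Pool.Agent.Results.MP_a33f4b_pr.SlowMeanSplit

lemma rate {u : ℕ → ℝ≥0∞} {c ρ : ℝ} (hc : 0 < c) (hρ : 0 < ρ)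
    (h : ∀ n, ENNReal.ofReal (c * ρ ^ n) ≤ u n) :
    ((Real.log ρ : ℝ) : EReal) ≤ liminf (fun n : ℕ => ENNReal.log (u n) / (n : EReal)) atTop := by
  have h1 : Tendsto (fun n : ℕ => (((Real.log c / n + Real.log ρ : ℝ)) : EReal)) atTop
      (𝓝 ((Real.log ρ : ℝ) : EReal)) := by
    rw [EReal.tendsto_coe]
    have := (tendsto_const_div_atTop_nhds_zero_nat (Real.log c)).add_const (Real.log ρ)
    simpa using this
  rw [← h1.liminf_eq]
  refine liminf_le_liminf ?_
  filter_upwards [eventually_gt_atTop 0] with n hn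
  have h2 : ENNReal.log (ENNReal.ofReal (c * ρ ^ n)) ≤ ENNReal.log (u n) :=
    ENNReal.log_monotone (h n)
  have h3 : ENNReal.log (ENNReal.ofReal (c * ρ ^ n)) = ((Real.log (c * ρ ^ n) : ℝ) : EReal) :=
    ENNReal.log_ofReal_of_pos (by positivity)
  have hn' : (0:ℝ) < n := by exact_mod_cast hn
  have h4 : (((Real.log c / n + Real.log ρ : ℝ)) : EReal) =
      ((Real.log (c * ρ ^ n) : ℝ) : EReal) / (n : EReal) := by
    rw [Real.log_mul hc.ne' (by positivity), Real.log_pow]
    have : ((n : EReal)) = ((n : ℝ) : EReal) := by simp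
    rw [this, ← EReal.coe_div]
    congr 1
    field_simp
  rw [h4, ← h3]
  exact EReal.div_le_div_right_of_nonneg (by positivity) h2

theorem result : ∀ ρ : ℝ, 1 / 2 < ρ → ρ ^ 2 + ρ < 1 →
    ∃ μ : Measure ℝ, IsProbabilityMeasure μ ∧ μ ≪ volume ∧ MemLp (fun x : ℝ => x) 2 μ ∧
      (∃ c : ℝ, 0 < c ∧ ∀ n : ℕ, ENNReal.ofReal (c * ρ ^ n) ≤ W1 (T n μ) μ) ∧
      ((Real.log ρ : ℝ) : EReal) ≤
        liminf (fun n : ℕ => ENNReal.log (W1 (T n μ) μ) / (n : EReal)) atTop ∧
      limsup (fun n : ℕ => ENNReal.log (W1 (T n μ) μ) / (n : EReal)) atTop ≠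
        ((-Real.log 2 : ℝ) : EReal) := by
  intro ρ h1 h2
  have h3 : 0 < 1 - ρ ^ 2 := by nlinarith
  have h4 : 0 < ρ / (1 - ρ ^ 2) := by positivity
  have h5 : ρ / (1 - ρ ^ 2) < 1 := by rw [div_lt_one h3]; linarith
  set q := ρ / (1 - ρ ^ 2) with hq
  have hqe : q * (1 - ρ ^ 2) = ρ := by rw [hq]; field_simp
  have hs : (0:ℝ) < (1 + q) / 2 := by positivity
  have hs1 : (1 + q) / 2 < 1 := by linarith
  set s := (1 + q) / 2 with hsdef
  have hsq : q < s := by rw [hsdef]; linarith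
  have hρs : ρ / s < 1 - ρ ^ 2 := by
    rw [div_lt_iff₀ hs]; nlinarith
  have hρs2 : ρ < ρ / s := by
    rw [lt_div_iff₀ hs]; nlinarith
  let P : Par :=
    { r := 1 - ρ / s
      ρ := ρ
      θ := 2 * (1 - s)
      r0 := by nlinarith
      rρ := by linarith
      ρ1 := by nlinarith
      θ0 := by linarith
      θ1 := by rw [hsdef]; linarith
      eq := by
        have : (1 - (1 - ρ / s)) * (1 - 2 * (1 - s) / 2) = ρ / s * s := by ring
        rw [this]; field_simp
      sq := by linarith }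
  have hlow : ∀ n : ℕ, ENNReal.ofReal (P.r / 2 * ρ ^ n) ≤ W1 (T n P.μ) P.μ := fun n => P.W1_ge n
  have hr : 0 < P.r / 2 := by have := P.r0; positivity
  have hlim := rate hr (by linarith : (0:ℝ) < ρ) hlow
  refine ⟨P.μ, inferInstance, P.μ_ac, P.μ_memLp, ⟨P.r / 2, hr, hlow⟩, hlim, ?_⟩
  intro hEq
  have h6 := hlim.trans (liminf_le_limsup (by isBoundedDefault) (by isBoundedDefault))
  rw [hEq, EReal.coe_le_coe_iff] at h6
  have h7 : Real.log (1 / 2) < Real.log ρ := Real.log_lt_log (by norm_num) h1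
  rw [one_div, Real.log_inv] at h7
  linarith

end Pool.Agent.Results.MP_a33f4b_pr.SlowMeanSplit
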